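import Mathlib
import Pool.Agent.GGX.Core

/-!
# The bound for fixed arrays, second form

The set of the sums without conflicts is given for every advice.
-/

namespace Pool.Agent.GGY

open Finset Pool.Agent.GGX

section sel

variable {K : Type*} [Field K] [Fintype K] [DecidableEq K]

open Classical in
/-- **Selection.** `S` is the set of the sums; `X` are sums, the other elements of `W` are not. -/
theorem select2 (S X : Finset K) (Q : Finset (K × K)) (hXS : X ⊆ S)
    (hself : ∀ z ∈ X, ¬ Self Q z) (hconf : ∀ z ∈ X, ∀ z' ∈ X, z ≠ z' → ¬ Conf Q z z') :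
    ∃ W : Finset K, X ⊆ W ∧ (∀ z ∈ W, (z ∈ S ↔ z ∈ X)) ∧
      Fintype.card K ≤ (W.card - X.card) * (Q.card ^ 2 + 1) + S.card * (Q.card ^ 2 + 1)
        + Q.card ^ 2 ∧
      (∀ z ∈ W, ¬ Self Q z) ∧ (∀ z ∈ W, ∀ z' ∈ W, z ≠ z' → ¬ Conf Q z z') := by
  -- the non-sums without conflict with `X`
  set V := (univ : Finset K).filter
    (fun z => z ∉ S ∧ ¬ Self Q z ∧ ∀ x ∈ X, ¬ Conf Q x z) with hV
  obtain ⟨I, hI, hind, hc⟩ := exists_indep (Conf Q) (fun _ _ h => h.symm) V (Q.card ^ 2)
    (fun x _ B _ h => (card_le_card (fun y hy => mem_filter.mpr ⟨mem_univ _, h y hy⟩)).trans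
      (conf_card Q x))
  have hdisj : Disjoint X I := by
    rw [disjoint_left]
    intro z h1 h2
    exact (mem_filter.mp (hI h2)).2.1 (hXS h1)
  refine ⟨X ∪ I, subset_union_left, ?_, ?_, ?_, ?_⟩
  · intro z hz
    constructor
    · intro h
      rcases mem_union.mp hz with h1 | h1
      · exact h1
      · exact absurd h (mem_filter.mp (hI h1)).2.1
    · intro h
      exact hXS h
  · have h1 : (univ : Finset K) ⊆ V ∪ (S ∪ ((univ : Finset K).filter (Self Q) ∪
        X.biUnion (fun x => (univ : Finset K).filter (Conf Q x)))) := by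
      intro z _
      by_cases h2 : z ∈ S
      · exact mem_union_right _ (mem_union_left _ h2)
      · by_cases h3 : Self Q z
        · exact mem_union_right _ (mem_union_right _ (mem_union_left _
            (mem_filter.mpr ⟨mem_univ _, h3⟩)))
        · by_cases h4 : ∀ x ∈ X, ¬ Conf Q x z
          · exact mem_union_left _ (mem_filter.mpr ⟨mem_univ _, h2, h3, h4⟩)
          · push Not at h4
            obtain ⟨x, hx, h5⟩ := h4
            exact mem_union_right _ (mem_union_right _ (mem_union_right _
              (mem_biUnion.mpr ⟨x, hx, mem_filter.mpr ⟨mem_univ _, h5⟩⟩)))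
    have h2 := card_le_card h1
    have h3 := card_union_le V (S ∪ ((univ : Finset K).filter (Self Q) ∪
        X.biUnion (fun x => (univ : Finset K).filter (Conf Q x))))
    have h4 := card_union_le S ((univ : Finset K).filter (Self Q) ∪
        X.biUnion (fun x => (univ : Finset K).filter (Conf Q x)))
    have h5 := card_union_le ((univ : Finset K).filter (Self Q))
      (X.biUnion (fun x => (univ : Finset K).filter (Conf Q x)))
    have h6 := self_card Q
    have h7 : (X.biUnion (fun x => (univ : Finset K).filter (Conf Q x))).card ≤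
        S.card * Q.card ^ 2 := by
      calc (X.biUnion (fun x => (univ : Finset K).filter (Conf Q x))).card
          ≤ ∑ x ∈ X, ((univ : Finset K).filter (Conf Q x)).card := card_biUnion_le
        _ ≤ ∑ _x ∈ X, Q.card ^ 2 := sum_le_sum (fun x _ => conf_card Q x)
        _ = X.card * Q.card ^ 2 := by simp
        _ ≤ S.card * Q.card ^ 2 := Nat.mul_le_mul_right _ (card_le_card hXS)
    have h8 : (X ∪ I).card - X.card = I.card := by
      rw [card_union_of_disjoint hdisj]
      omega
    rw [h8]
    rw [card_univ] at h2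
    have h9 : S.card * (Q.card ^ 2 + 1) = S.card * Q.card ^ 2 + S.card := by ring
    omega
  · intro z hz
    rcases mem_union.mp hz with h | h
    · exact hself z h
    · exact (mem_filter.mp (hI h)).2.2.1
  · intro z hz z' hz' hne hco
    rcases mem_union.mp hz with h | h
    · rcases mem_union.mp hz' with h' | h'
      · exact hconf z h z' h' hne hco
      · exact (mem_filter.mp (hI h')).2.2.2 z h hco
    · rcases mem_union.mp hz' with h' | h'
      · exact (mem_filter.mp (hI h)).2.2.2 z' h' hco.symm
      · exact hind z h z' h' hne hco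

end sel

section core

variable {K L : Type*} [Field K] [Fintype K] [DecidableEq K] {H T n : ℕ}

open Classical in
/-- **The bound for fixed arrays.** -/
theorem core2 (P : Scheme K L H T) (a b : Fin n → K) (m M E F : ℕ) (hEm : E ≤ m)
    (hsel : ∀ α, ∃ X ⊆ sums a b, m ≤ X.card ∧
      (∀ z ∈ X, ¬ Self (univ.image (P.query α)) z) ∧
      (∀ z ∈ X, ∀ z' ∈ X, z ≠ z' → ¬ Conf (univ.image (P.query α)) z z'))
    (hM : M * (T ^ 2 + 1) + (sums a b).card * (T ^ 2 + 1) + T ^ 2 ≤ Fintype.card K)
    (Sg : Finset (K → L)) (hSg : ∀ π : Equiv.Perm K, ∀ σ ∈ Sg, σ ∘ π ∈ Sg)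
    (Sg' : Finset (K → L)) (hSg' : Sg' ⊆ Sg) (hw : ∀ σ ∈ Sg', Works P a b E F σ) :
    Sg'.card * (M + m).choose (m - E) ≤
      H * (Sg.card * (m.choose (m - E) * (m + F).choose (m - E))) := by
  -- the set of the queries for the advice `α`
  let Q : Fin H → Finset (K × K) := fun α => univ.image (P.query α)
  have hQT : ∀ α, (Q α).card ≤ T := by
    intro α
    calc (Q α).card ≤ (univ : Finset (Fin T)).card := card_image_le
      _ = T := by simp
  have hmem : ∀ α t, P.query α t ∈ Q α := fun α t => mem_image_of_mem _ (mem_univ t)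
  have hQ2 : ∀ α, (Q α).card ^ 2 ≤ T ^ 2 := fun α => Nat.pow_le_pow_left (hQT α) 2
  choose X hXS hX hselfX hconfX using hsel
  have hsel2 := fun α => select2 (sums a b) (X α) (Q α) (hXS α) (hselfX α) (hconfX α)
  choose W hXW hWS hW hself hconf using hsel2
  refine exch_union H M m E F hEm (fun α => {q : K × K // q ∈ Q α}) W X hXW hX ?_
    (fun α => {q | q.1.1 ≠ 0}) (fun α z q => q.1.1 * z + q.1.2) ?_ ?_ ?_ Sg hSg
    (fun α l => P.dec α (fun t => l ⟨P.query α t, hmem α t⟩)) Sg' hSg' ?_
  · intro α
    have h1 := hW α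
    have h2 := hQ2 α
    have h3 : (X α).card ≤ (W α).card := card_le_card (hXW α)
    by_contra hcon
    push Not at hcon
    have h4 : (W α).card - (X α).card < M := by omega
    have h5 : ((W α).card - (X α).card) * ((Q α).card ^ 2 + 1) +
        (sums a b).card * ((Q α).card ^ 2 + 1) + (Q α).card ^ 2 <
        M * (T ^ 2 + 1) + (sums a b).card * (T ^ 2 + 1) + T ^ 2 := by
      have h6 : ((W α).card - (X α).card) * ((Q α).card ^ 2 + 1) < M * (T ^ 2 + 1) := by
        calc ((W α).card - (X α).card) * ((Q α).card ^ 2 + 1)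
            ≤ ((W α).card - (X α).card) * (T ^ 2 + 1) := Nat.mul_le_mul_left _ (by omega)
          _ < M * (T ^ 2 + 1) := Nat.mul_lt_mul_of_pos_right h4 (by positivity)
      have h7 : (sums a b).card * ((Q α).card ^ 2 + 1) ≤ (sums a b).card * (T ^ 2 + 1) :=
        Nat.mul_le_mul_left _ (by omega)
      omega
    omega
  · intro α z hz z' hz' q hq q' hq' h
    have hzz : z = z' := by
      by_contra hne
      exact hconf α z hz z' hz' hne ⟨q.1, q.2, q'.1, q'.2, hq, hq', h⟩
    refine ⟨hzz, ?_⟩
    subst hzz
    by_cases hc : q.1.1 = q'.1.1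
    · have h2 : q.1.2 = q'.1.2 := by
        have := h
        rw [hc] at this
        exact add_left_cancel this
      exact Subtype.ext (Prod.ext hc h2)
    · exact absurd ⟨q.1, q.2, q'.1, q'.2, hc, h⟩ (hself α z hz)
  · intro α z z' q hq
    have : q.1.1 = 0 := by
      by_contra h
      exact hq h
    simp only [this, zero_mul]
  · intro α z hz z' hz' q hq q' hq' h
    have h0 : q'.1.1 = 0 := by
      by_contra h'
      exact hq' h'
    refine hself α z hz ⟨q.1, q.2, q'.1, q'.2, ?_, ?_⟩
    · rw [h0]
      exact hq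
    · rw [h, h0]
      ring
  · intro σ hσ
    obtain ⟨α, hα1, hα2⟩ := hw σ hσ
    refine ⟨α, univ.filter (fun z => IsSum a b z ∧ ¬ Accepts P σ α z),
      univ.filter (fun z => ¬ IsSum a b z ∧ Accepts P σ α z), ?_, ?_, ?_, ?_⟩
    · have h := hα1
      rw [Set.encard_eq_coe_toFinset_card] at h
      have h' : ({z | IsSum a b z ∧ ¬ Accepts P σ α z} : Set K).toFinset =
          univ.filter (fun z => IsSum a b z ∧ ¬ Accepts P σ α z) := by
        ext z
        simp
      rw [h'] at h
      exact_mod_cast h
    · have h := hα2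
      rw [Set.encard_eq_coe_toFinset_card] at h
      have h' : ({z | ¬ IsSum a b z ∧ Accepts P σ α z} : Set K).toFinset =
          univ.filter (fun z => ¬ IsSum a b z ∧ Accepts P σ α z) := by
        ext z
        simp
      rw [h'] at h
      exact_mod_cast h
    · intro z hz hzR
      have h1 : IsSum a b z := by
        have := (hWS α z (hXW α hz)).mpr hz
        exact (mem_filter.mp this).2
      by_contra h2
      exact hzR (mem_filter.mpr ⟨mem_univ _, h1, h2⟩)
    · intro z hz hzX hzA h2
      have h1 : ¬ IsSum a b z := by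
        intro h
        exact hzX ((hWS α z hz).mp (mem_filter.mpr ⟨mem_univ _, h⟩))
      exact hzA (mem_filter.mpr ⟨mem_univ _, h1, h2⟩)

end core

end Pool.Agent.GGY
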