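import Mathlib
import Pool.Agent.GGX.Defs

/-!
# A structure with `T` queries and `n (n - T + 2)` labels
-/

namespace Pool.Agent.GGY

open Finset Pool.Agent.GGX

/-- the stored elements: the entries of `b`, and the sums of the rows `i ≥ T - 1` -/
def stored {K : Type*} [Field K] {n : ℕ} (T : ℕ) (a b : Fin n → K)
    (x : Fin (n - T + 2) × Fin n) : K :=
  if h : 0 < x.1.1 ∧ T + x.1.1 - 2 < n then a ⟨T + x.1.1 - 2, h.2⟩ + b x.2 else b x.2

/-- the structure -/
def scheme2 {K L : Type*} [Field K] {n H : ℕ} (T : ℕ) (hTn : T ≤ n) (a : Fin n → K)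
    (e : (Fin (n - T + 2) × Fin n → L) ≃ Fin H) : Scheme K L H T :=
  ⟨fun _ t => (1, if t.1 + 1 < T then - a ⟨t.1, lt_of_lt_of_le t.2 hTn⟩ else 0),
    fun α l => (∃ t : Fin T, ∃ j, t.1 + 1 < T ∧ l t = e.symm α (⟨0, by omega⟩, j)) ∨
      (∃ t : Fin T, ∃ r j, t.1 + 1 = T ∧ 0 < r.1 ∧ l t = e.symm α (r, j))⟩

theorem accepts2 {K L : Type*} [Field K] {n H : ℕ} (T : ℕ) (hT : 1 ≤ T) (hTn : T ≤ n)
    (a b : Fin n → K) (e : (Fin (n - T + 2) × Fin n → L) ≃ Fin H) (σ : K → L)
    (hσ : Function.Injective σ) (z : K) :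
    Accepts (scheme2 T hTn a e) σ (e (fun x => σ (stored T a b x))) z ↔ IsSum a b z := by
  simp only [Accepts, scheme2, Equiv.symm_apply_apply]
  constructor
  · rintro (⟨t, j, ht, h⟩ | ⟨t, r, j, ht, hr, h⟩)
    · have h1 := hσ h
      rw [if_pos ht] at h1
      simp only [stored, lt_self_iff_false, false_and, dite_false] at h1
      exact ⟨⟨t.1, lt_of_lt_of_le t.2 hTn⟩, j, by linear_combination -h1⟩
    · have h1 := hσ h
      rw [if_neg (by omega)] at h1
      have h2 : 0 < r.1 ∧ T + r.1 - 2 < n := ⟨hr, by have := r.2; omega⟩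
      rw [stored, dif_pos h2] at h1
      exact ⟨_, j, by rw [← h1]; ring⟩
  · rintro ⟨i, j, h⟩
    by_cases hi : i.1 + 1 < T
    · refine Or.inl ⟨⟨i.1, by omega⟩, j, hi, ?_⟩
      congr 1
      simp only [stored, lt_self_iff_false, false_and, dite_false]
      rw [if_pos hi, ← h]
      ring
    · refine Or.inr ⟨⟨T - 1, by omega⟩, ⟨i.1 + 2 - T, by have := i.2; omega⟩, j, ?_, ?_, ?_⟩
      · simp only
        omega
      · simp only
        omega
      · congr 1
        simp only
        rw [if_neg (by omega)]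
        have h2 : 0 < i.1 + 2 - T ∧ T + (i.1 + 2 - T) - 2 < n := ⟨by omega, by omega⟩
        rw [stored, dif_pos h2]
        have h3 : (⟨T + (i.1 + 2 - T) - 2, h2.2⟩ : Fin n) = i := by
          apply Fin.ext
          simp only
          omega
        simp only [h3]
        rw [← h]
        ring

/-- **Upper bound.** `T` shifts and `n (n - T + 2)` labels suffice, for all arrays. -/
theorem upper2 {K L : Type*} [Field K] [Fintype L] (n T : ℕ) (hT : 1 ≤ T) (hTn : T ≤ n)
    (a b : Fin n → K) :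
    ∃ P : Scheme K L (Fintype.card L ^ (n * (n - T + 2))) T,
      (∀ α t, (P.query α t).1 = 1) ∧
      ∀ σ : K → L, Function.Injective σ → Works P a b 0 0 σ := by
  classical
  have hcard : Fintype.card (Fin (n - T + 2) × Fin n → L) =
      Fintype.card L ^ (n * (n - T + 2)) := by
    rw [Fintype.card_fun, Fintype.card_prod, Fintype.card_fin, Fintype.card_fin, mul_comm]
  let e : (Fin (n - T + 2) × Fin n → L) ≃ Fin (Fintype.card L ^ (n * (n - T + 2))) :=
    Fintype.equivFinOfCardEq hcard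
  refine ⟨scheme2 T hTn a e, fun _ _ => rfl, fun σ hσ => ?_⟩
  refine ⟨e (fun x => σ (stored T a b x)), ?_, ?_⟩
  · have : {z | IsSum a b z ∧ ¬ Accepts (scheme2 T hTn a e) σ
        (e (fun x => σ (stored T a b x))) z} = ∅ := by
      ext z
      simp only [Set.mem_ofPred_eq, Set.mem_empty_iff_false, iff_false, not_and, not_not]
      exact (accepts2 T hT hTn a b e σ hσ z).mpr
    rw [this]
    simp
  · have : {z | ¬ IsSum a b z ∧ Accepts (scheme2 T hTn a e) σ
        (e (fun x => σ (stored T a b x))) z} = ∅ := by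
      ext z
      simp only [Set.mem_ofPred_eq, Set.mem_empty_iff_false, iff_false, not_and]
      exact fun h h' => h ((accepts2 T hT hTn a b e σ hσ z).mp h')
    rw [this]
    simp

end Pool.Agent.GGY
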